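import Pool.Agent.TH668.Met.Fractal
import Pool.Agent.TH668.Met.Leb

set_option autoImplicit false

/-!
# Sets of positive Fourier dimension meet record prime gaps

Let `μ` be a probability measure on the real line whose Fourier transform is `O(|ξ| ^ (-τ))` for some
`τ > 0`; such measures live on Salem sets, on random Cantor sets, on the set of numbers whose partial
quotients are at most `3`, and on many other sets of Lebesgue measure zero. Then for all large `Z` and
EVERY real `Y` such that `Y + Z x ≥ Z ^ ε` for almost every `x`, the `x` for which no prime lies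
within `κ log Z (log₂ Z)² log₄ Z / (log₃ Z)²` of `Y + Z x` have measure at least `Z ^ (-ε)`. The
constant `κ` depends on `τ` and `ε` only, and the lower bound for `Z` on `τ`, `ε` and the constant in
the bound for the Fourier transform. Consequently the affine image `Y + Z K` of every closed set `K`
that carries the measure contains a point that far from all primes.

Proof (`Pool.Agent.TH668.Met`). If the exceptional set had measure less than `Z ^ (-ε)`, one could
choose about `Z ^ (14 η)` points outside it one after the other so that the sum over all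
frequencies `h Z / q`, `q ≤ Z ^ η`, `h ≤ Z ^ (4 η)`, of the squares of the exponential sums grows
by little in each step, the average being controlled by the Fourier transform of the measure; and
the covering sieve of the starting library, in the form `Pool.Agent.TH915.PW.crit_scaled`
(helper915), would find one of these points in the exceptional set.
-/

open MeasureTheory Filter

namespace Pool.Agent.Results.MP_7b323f_nt.FractalSetsMeetRecordGaps

/-- `L(x) = log x (log log x)^2 log log log log x / (log log log x)^2`. -/
noncomputable def L (x : ℝ) : ℝ :=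
  Real.log x * (Real.log (Real.log x)) ^ 2 * Real.log (Real.log (Real.log (Real.log x))) /
    (Real.log (Real.log (Real.log x))) ^ 2

theorem result (τ ε : ℝ) (hτ : 0 < τ) (hε : 0 < ε) :
    ∃ κ : ℝ, 0 < κ ∧ ∀ C : ℝ, ∃ Z₀ : ℝ, ∀ (μ : Measure ℝ) [IsProbabilityMeasure μ],
      (∀ ξ : ℝ, 1 ≤ |ξ| →
        ‖∫ x : ℝ, Complex.exp (2 * Real.pi * (ξ * x) * Complex.I) ∂μ‖ ≤ C * |ξ| ^ (-τ)) →
      ∀ Z : ℝ, Z₀ ≤ Z → ∀ Y : ℝ, (∀ᵐ x ∂μ, Z ^ ε ≤ Y + Z * x) →
        Z ^ (-ε) ≤ μ.real {x | ∀ q : ℕ, q.Prime → κ * L Z < |(q : ℝ) - (Y + Z * x)|} := by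
  obtain ⟨κ, hκ, h⟩ := Pool.Agent.TH668.Met.fractal τ ε hτ hε
  refine ⟨κ, hκ, fun C => ?_⟩
  obtain ⟨Z₀, hZ₀⟩ := h C
  refine ⟨Z₀, fun μ _ hμ => hZ₀ μ fun ξ hξ => ?_⟩
  simp_rw [Pool.Agent.TH668.Met.e_eq]
  exact hμ ξ hξ

end Pool.Agent.Results.MP_7b323f_nt.FractalSetsMeetRecordGaps
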