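import Pool.Agent.TH668.Met.Expo

set_option autoImplicit false

/-!
# Almost every member of a one-parameter family of sequences meets record prime gaps

First part: let `F n`, `n = 0, 1, 2, …`, be twice continuously differentiable real functions whose
derivatives satisfy `(F (n + 1))' - (F n)' ≥ n ^ (ρ - 1)` and `(F (n + 1))'' ≥ (F n)''` on an interval,
for `n ≥ n₀`. For almost every `x` in the interval the sequence `F n x` has the following property if
it is at least `n ^ ε` for all large `n`: for all large `M` some `n` in `(M, 4M]` is such that no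
prime lies within `κ log M (log₂ M)² log₄ M / (log₃ M)²` of `F n x`; `κ` depends on `ρ`, `ε` only.

Second part: for every strictly increasing sequence `a n` of positive integers (of any rate of
growth) and EVERY real sequence `b n`, almost every exponent `x > 1` has this property for
`(a n) ^ x + b n`.

Proof (`Pool.Agent.TH668.Met`). The first derivative test bounds the correlations
`∫ e(h (F m x - F n x) / q) dx`, so for almost all `x` the exponential sums over all large
dyadic blocks are small; the covering sieve of the starting library, in the form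
`Pool.Agent.TH915.PW.crit_scaled` (helper915), does the rest.
-/

open MeasureTheory Filter

namespace Pool.Agent.Results.MP_7b323f_nt.RandomExponents

/-- `L(x) = log x (log log x)^2 log log log log x / (log log log x)^2`. -/
noncomputable def L (x : ℝ) : ℝ :=
  Real.log x * (Real.log (Real.log x)) ^ 2 * Real.log (Real.log (Real.log (Real.log x))) /
    (Real.log (Real.log (Real.log x))) ^ 2

/-- for all large `M` one of the numbers `x n`, `M < n ≤ 4 M`, is at distance greater than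
`κ L(M)` from all primes -/
def MeetsRecordGaps (κ : ℝ) (x : ℕ → ℝ) : Prop :=
  ∀ᶠ M : ℝ in atTop, ∃ n : ℕ, M < n ∧ (n : ℝ) ≤ 4 * M ∧
    ∀ q : ℕ, q.Prime → κ * L M < |(q : ℝ) - x n|

theorem result :
    (∀ ρ ε : ℝ, 0 < ρ → ρ ≤ 1 → 0 < ε → ∃ κ : ℝ, 0 < κ ∧ ∀ u v : ℝ, u ≤ v →
      ∀ (n₀ : ℕ) (F F' F'' : ℕ → ℝ → ℝ), (∀ n x, HasDerivAt (F n) (F' n x) x) →
      (∀ n x, HasDerivAt (F' n) (F'' n x) x) → (∀ n, Continuous (F'' n)) →
      (∀ n, n₀ ≤ n → ∀ x ∈ Set.Icc u v, (n : ℝ) ^ (ρ - 1) ≤ F' (n + 1) x - F' n x ∧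
        F'' n x ≤ F'' (n + 1) x) →
      ∀ᵐ x : ℝ, x ∈ Set.Ioc u v → (∀ᶠ n : ℕ in atTop, (n : ℝ) ^ ε ≤ F n x) →
        MeetsRecordGaps κ (fun n => F n x)) ∧
    (∀ ε : ℝ, 0 < ε → ∃ κ : ℝ, 0 < κ ∧ ∀ a : ℕ → ℕ, StrictMono a → (∀ n, 1 ≤ a n) →
      ∀ b : ℕ → ℝ, ∀ᵐ x : ℝ, 1 < x → (∀ᶠ n : ℕ in atTop, (n : ℝ) ^ ε ≤ (a n : ℝ) ^ x + b n) →
        MeetsRecordGaps κ (fun n => (a n : ℝ) ^ x + b n)) := by
  constructor
  · intro ρ ε hρ hρ1 hε
    obtain ⟨κ, hκ, h⟩ := Pool.Agent.TH668.Met.metric_gen ρ ε hρ hρ1 hε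
    refine ⟨κ, hκ, fun u v huv n₀ F F' F'' h1 h2 h3 h4 => ?_⟩
    have h5 := h u v huv n₀ F F' F'' ⟨h1, h2, h3, fun n hn x hx => (h4 n hn x hx).1,
      fun n hn x hx => sub_nonneg.mpr (h4 n hn x hx).2⟩
    rw [ae_restrict_iff' measurableSet_Ioc] at h5
    exact h5
  · intro ε hε
    obtain ⟨κ, hκ, h⟩ := Pool.Agent.TH668.Met.exponents ε hε
    exact ⟨κ, hκ, fun a ha ha1 b => h a ha ha1 b⟩

end Pool.Agent.Results.MP_7b323f_nt.RandomExponents
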