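import Mathlib
import Pool.Agent.TH816.RR.Lim4

/-!
# Limit points of the vectors of `k` consecutive prime gaps, at every scale up to the record

For every `k ≥ 1` there is `c > 0` such that for every slowly varying scale `F` with `log ≤ F ≤ f` (`f` the size
of the largest gaps known), every squarefree `q` and every `a` prime to `q` the following holds for the (closed)
set `L` of the limit points of `(g_n, ..., g_(n+k-1)) / F(p_n)`, taken over the `n` with
`p_n ≡ ... ≡ p_(n+k) ≡ a (mod q)`: the closure of the INTERIOR of `L` fills at least the proportion `c` of every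
cube `[0, T]^k`, `0 < T ≤ 1`, in volume.
-/

set_option autoImplicit false

open Filter MeasureTheory

namespace Pool.Agent.Results.MP_7b323f_nt.VectorsOfLimitPoints

/-- the size of the largest gaps known to exist near `x` -/
noncomputable def f (x : ℝ) : ℝ :=
  Real.log x * (Real.log (Real.log x)) ^ 2 * Real.log (Real.log (Real.log (Real.log x))) /
    (Real.log (Real.log (Real.log x))) ^ 2

/-- the scale `F` lies between `log` and `f` near infinity and varies slowly -/
def Admissible (F : ℝ → ℝ) : Prop :=
  (∀ᶠ x : ℝ in atTop, Real.log x ≤ F x ∧ F x ≤ f x) ∧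
  ∀ δ : ℝ, 0 < δ → ∀ᶠ x : ℝ in atTop, ∀ y : ℝ, x ≤ y → y ≤ 4 * x → |F y / F x - 1| < δ

/-- the vectors `v` such that for every `ε > 0` there are infinitely many `n` for which the `k + 1` consecutive
primes `p_n, ..., p_(n+k)` are all congruent to `a` modulo `q` and `|(p_(n+i+1) - p_(n+i)) / F(p_n) - v i| < ε` for
`0 ≤ i < k`, where `p_n = Nat.nth Nat.Prime n` are the primes in increasing order -/
def LimitVectors (F : ℝ → ℝ) (q a k : ℕ) : Set (Fin k → ℝ) :=
  {v | ∀ ε : ℝ, 0 < ε →
    {n : ℕ | (∀ i : Fin (k + 1), Nat.nth Nat.Prime (n + i) ≡ a [MOD q]) ∧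
      ∀ i : Fin k, |((Nat.nth Nat.Prime (n + i + 1) : ℝ) - Nat.nth Nat.Prime (n + i)) /
        F (Nat.nth Nat.Prime n) - v i| < ε}.Infinite}

/-- For every `k ≥ 1` there is `c > 0` such that for every admissible scale `F`, every squarefree `q`, every `a`
prime to `q` and every `0 < T ≤ 1` the closure of the interior of the set of the limit vectors of `k` consecutive
gaps between primes `≡ a (mod q)`, divided by `F`, has volume at least `c T ^ k` inside the cube `[0, T] ^ k`. -/
theorem result (k : ℕ) (hk : 1 ≤ k) : ∃ c : ℝ, 0 < c ∧ ∀ F : ℝ → ℝ, Admissible F →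
    ∀ q a : ℕ, Squarefree q → a.Coprime q → ∀ T : ℝ, 0 < T → T ≤ 1 →
      ENNReal.ofReal (c * T ^ k) ≤
        volume (closure (interior (LimitVectors F q a k)) ∩ Set.Icc 0 (fun _ : Fin k => T)) := by
  obtain ⟨c, hc, h⟩ := Pool.Agent.TH816.RR.lim_interior k hk
  exact ⟨c, hc, fun F hF q a hq haq => (h F hF.1 hF.2 q a hq haq (LimitVectors F q a k) rfl).1⟩

end Pool.Agent.Results.MP_7b323f_nt.VectorsOfLimitPoints
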