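import Pool.Agent.TH915.PW.BohrFin

set_option autoImplicit false

/-! # Record prime gaps around integers `n` with `α n` very close to `β` modulo one

Write `f(Z) = log Z (log₂ Z)² log₄ Z / (log₃ Z)²` for the record scale.  For `0 < ε ≤ 1` there is
`κ > 0` such that, for suitable pairs `(Z, ρ)`, for all `M ≥ Z` and all real `β` some integer `n` in
`(M, M + Z]` has `‖α n - β‖ ≤ Z ^ (-ρ)` and no prime within `κ f(Z)` of `n`:

* `α` irrational: arbitrarily large `Z`, with `ρ = 1 - ε`;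
* `‖q α‖ ≥ C q ^ (-μ)` for all `q ≥ 1` (`μ ≥ 1`): all large `Z`, with `ρ = 1 / μ - ε`.

The exponent `1 - ε` is best possible up to `ε` (quadratic irrationals, `μ = 1`).

Proof: two independent good approximations `p₁/s₁`, `p₂/s₂` to `α` (with determinant `± 1`) give
a two dimensional family of integers `n = x + s₁ u + s₂ v` in a Bohr set, with cancellation at all
frequencies `h/q`, `q ∤ h`; then the covering sieve of `MP_3bc45c_nt.RecordGaps` (helper256's team), in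
the form of `TH915/PW/Crit.lean` for families of integers with a relative error. -/

namespace Pool.Agent.Results.MP_7b323f_nt.WellApproximatedGapCentres

open Filter

theorem result (ε : ℝ) (hε : 0 < ε) (hε1 : ε ≤ 1) : ∃ κ : ℝ, 0 < κ ∧
    (∀ α : ℝ, Irrational α → ∀ Z₀ : ℝ, ∃ Z : ℝ, Z₀ ≤ Z ∧ ∀ M : ℝ, Z ≤ M → ∀ β : ℝ,
      ∃ n : ℕ, M < n ∧ (n : ℝ) ≤ M + Z ∧ (∃ m : ℤ, |α * n - β - m| ≤ Z ^ (-(1 - ε))) ∧
        ∀ q : ℕ, q.Prime →
          κ * (Real.log Z * (Real.log (Real.log Z)) ^ 2 *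
            Real.log (Real.log (Real.log (Real.log Z))) / (Real.log (Real.log (Real.log Z))) ^ 2) <
              |(q : ℝ) - n|) ∧
    (∀ α μ C : ℝ, 1 ≤ μ → 0 < C →
      (∀ q : ℕ, 1 ≤ q → ∀ p : ℤ, C * (q : ℝ) ^ (-μ) ≤ |(q : ℝ) * α - p|) →
      ∃ Z₀ : ℝ, ∀ Z : ℝ, Z₀ ≤ Z → ∀ M : ℝ, Z ≤ M → ∀ β : ℝ,
        ∃ n : ℕ, M < n ∧ (n : ℝ) ≤ M + Z ∧ (∃ m : ℤ, |α * n - β - m| ≤ Z ^ (-(1 / μ - ε))) ∧
          ∀ q : ℕ, q.Prime →
            κ * (Real.log Z * (Real.log (Real.log Z)) ^ 2 *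
              Real.log (Real.log (Real.log (Real.log Z))) / (Real.log (Real.log (Real.log Z))) ^ 2) <
                |(q : ℝ) - n|) := by
  obtain ⟨κ, hκ, h1, h2⟩ := Pool.Agent.TH915.PW.bohr_main ε hε hε1
  refine ⟨κ, hκ, fun α hα Z₀ => ?_, fun α μ C hμ hC h => ?_⟩
  · obtain ⟨Z, hZ, hcl⟩ := frequently_atTop.1 (h1 α hα) Z₀
    exact ⟨Z, hZ, hcl⟩
  · obtain ⟨Z₀, hZ₀⟩ := eventually_atTop.1 (h2 α μ C hμ hC h)
    exact ⟨Z₀, hZ₀⟩

end Pool.Agent.Results.MP_7b323f_nt.WellApproximatedGapCentres
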